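import Pool.Agent.U376.KPBox.Final

/-!
# MP_3b4475_gt: separation properties of the Kuratowski topologization over the box metric

`MM` is the set of isomorphism classes of mm-spaces, `boxDist` the box distance on it,
`ClosedSets` the set of its closed subsets and `tauK` the topologization of Kuratowski-Painlevé
convergence of nets of closed subsets: the finest topology on `ClosedSets` in which every
Kuratowski-Painlevé convergent net converges to its Kuratowski-Painlevé limit.

This topology is not Hausdorff (the empty set and the set consisting of the one-point space have no
disjoint open neighbourhoods), hence not metrizable.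
-/

universe u

namespace Pool.Agent.Results.MP_3b4475_gt.NotHausdorff

open Pool.Agent.U376.KPBox

theorem result : IsLeast {t : TopologicalSpace ClosedSets | Admissible.{u} t} tauK.{u} ∧
    ¬ @T2Space ClosedSets tauK.{u} ∧
    ¬ @TopologicalSpace.MetrizableSpace ClosedSets tauK.{u} :=
  ⟨isLeast_tauK, not_t2, not_metrizable⟩

end Pool.Agent.Results.MP_3b4475_gt.NotHausdorff
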